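import Pool.Agent.Lib.lead.CXGraphRed

namespace Pool.Agent.Results.MP_62751d_lc.Exists

open Pool.Agent.Lib.CX Sum Filter

/-- formulas of monadic second-order logic of graphs with vertex variables and vertex-set variables -/
inductive Fm
  | adj (i j : ℕ)
  | eq (i j : ℕ)
  | mem (i X : ℕ)
  | not (p : Fm)
  | and (p q : Fm)
  | exV (i : ℕ) (p : Fm)
  | exS (X : ℕ) (p : Fm)

def Sat {V : Type} (G : SimpleGraph V) : Fm → (ℕ → V) → (ℕ → Set V) → Prop
  | .adj i j, v, _ => G.Adj (v i) (v j)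
  | .eq i j, v, _ => v i = v j
  | .mem i X, v, S => v i ∈ S X
  | .not p, v, S => ¬Sat G p v S
  | .and p q, v, S => Sat G p v S ∧ Sat G q v S
  | .exV i p, v, S => ∃ x, Sat G p (Function.update v i x) S
  | .exS X p, v, S => ∃ A, Sat G p v (Function.update S X A)

/-- `G` satisfies the universal closure of `p` -/
def Holds {V : Type} (G : SimpleGraph V) (p : Fm) : Prop := ∀ v S, Sat G p v S

/-- `k`-expressions -/
inductive Ex (k : ℕ)
  | vert (l : Fin k)
  | union (a b : Ex k)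
  | join (i j : Fin k) (h : i ≠ j) (a : Ex k)
  | ren (i j : Fin k) (a : Ex k)

def Ex.V {k : ℕ} : Ex k → Type
  | vert _ => Unit
  | union a b => a.V ⊕ b.V
  | join _ _ _ a => a.V
  | ren _ _ a => a.V

def Ex.lab {k : ℕ} : (e : Ex k) → e.V → Fin k
  | vert l => fun _ => l
  | union a b => Sum.elim a.lab b.lab
  | join _ _ _ a => a.lab
  | ren i j a => fun x => if a.lab x = i then j else a.lab x

def Ex.G {k : ℕ} : (e : Ex k) → SimpleGraph e.V
  | vert _ => ⊥
  | union a b => a.G ⊕g b.G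
  | join i j _ a => a.G ⊔ SimpleGraph.fromRel fun x y => a.lab x = i ∧ a.lab y = j
  | ren _ _ a => a.G

/-- `G` is the value of a `k`-expression -/
def CwLe {V : Type} (G : SimpleGraph V) (k : ℕ) : Prop := ∃ e : Ex k, Nonempty (G ≃g e.G)

theorem sat_iso {V W : Type} {G : SimpleGraph V} {H : SimpleGraph W} (f : G ≃g H) (p : Fm) :
    ∀ v S, Sat G p v S ↔ Sat H p (f ∘ v) fun X => f '' S X := by
  induction p with
  | adj i j => exact fun v S => f.map_rel_iff.symm
  | eq i j => exact fun v S => f.injective.eq_iff.symm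
  | mem i X => exact fun v S => (f.injective.mem_set_image).symm
  | not p ih => exact fun v S => (ih v S).not
  | and p q h1 h2 => exact fun v S => and_congr (h1 v S) (h2 v S)
  | exV i p ih =>
    intro v S
    refine (exists_congr fun x => ?_).trans (f.surjective.exists (p := fun y => Sat H p
      (Function.update (f ∘ v) i y) fun X => f '' S X)).symm
    rw [ih, Function.comp_update]
  | exS X p ih =>
    intro v S
    refine (exists_congr fun x => ?_).trans (f.surjective.image_surjective.exists (p := fun y => Sat H p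
      (f ∘ v) (Function.update (fun X => f '' S X) X y))).symm
    rw [ih]
    exact iff_of_eq (congrArg _ (Function.comp_update (fun A => f '' A) S X x))

theorem holds_iso {V W : Type} {G : SimpleGraph V} {H : SimpleGraph W} (f : G ≃g H) (p : Fm) :
    Holds G p ↔ Holds H p :=
  ⟨fun h v S => (sat_iso f.symm p v S).2 (h _ _), fun h v S => (sat_iso f p v S).2 (h _ _)⟩

def code : Fm → ℕ
  | .adj i j => Nat.pair 0 (Nat.pair i j)
  | .eq i j => Nat.pair 1 (Nat.pair i j)
  | .mem i j => Nat.pair 2 (Nat.pair i j)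
  | .not p => Nat.pair 3 (code p)
  | .and p q => Nat.pair 4 (Nat.pair (code p) (code q))
  | .exV i p => Nat.pair 5 (Nat.pair i (code p))
  | .exS i p => Nat.pair 6 (Nat.pair i (code p))

instance : Countable Fm := ⟨code, fun p => by
  induction p <;> intro q h <;> cases q <;> simp_all [code] <;> grind⟩

theorem cut {k : ℕ} (e : Ex k) (t : ℕ) (ht : 0 < t) : ∀ W : Set e.V, W.Finite → t ≤ W.ncard →
    ∃ (A : Set e.V) (c : e.V → Fin k), t ≤ (W ∩ A).ncard ∧ (W ∩ A).ncard ≤ 2 * t ∧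
      ∀ x ∈ A, ∀ y ∈ A, c x = c y → e.lab x = e.lab y ∧ ∀ z ∉ A, e.G.Adj x z → e.G.Adj y z := by
  induction e with
  | vert l =>
    intro W hW h
    have : W.ncard ≤ 1 := (Set.ncard_le_one hW).2 fun _ _ _ _ => rfl
    exact ⟨Set.univ, fun _ => l, by simpa using h, by simp; omega, fun _ _ _ _ _ => ⟨rfl, by simp⟩⟩
  | union a b h1 h2 =>
    intro (W : Set (a.V ⊕ b.V)) hW h
    by_cases c : W.ncard ≤ 2 * t
    · exact ⟨Set.univ, _, (Set.inter_univ W).symm ▸ h, (Set.inter_univ W).symm ▸ c, fun _ _ _ _ h => ⟨h, by simp⟩⟩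
    have f1 := hW.preimage (inl_injective (α := a.V) (β := b.V)).injOn
    have f2 := hW.preimage (inr_injective (α := a.V) (β := b.V)).injOn
    have : W.ncard ≤ (inl ⁻¹' W : Set a.V).ncard + (inr ⁻¹' W : Set b.V).ncard := by
      rw [← Set.ncard_image_of_injective (inl ⁻¹' W : Set a.V) (inl_injective (β := b.V)),
        ← Set.ncard_image_of_injective (inr ⁻¹' W : Set b.V) (inr_injective (α := a.V))]
      refine le_trans (le_of_eq ?_) (Set.ncard_union_le _ _)
      exact congrArg _ (Set.image_preimage_inl_union_image_preimage_inr W).symm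
    by_cases d : t ≤ (inl ⁻¹' W : Set a.V).ncard
    · obtain ⟨A, c, a1, a2, a3⟩ := h1 _ f1 d
      have : (W ∩ inl '' A).ncard = (inl ⁻¹' W ∩ A).ncard := by
        rw [← Set.image_preimage_inter, Set.ncard_image_of_injective _ inl_injective]
      refine ⟨inl '' A, Sum.elim c b.lab, this ▸ a1, this ▸ a2, ?_⟩
      rintro _ ⟨x, hx, rfl⟩ _ ⟨y, hy, rfl⟩ h
      refine ⟨(a3 x hx y hy h).1, ?_⟩
      rintro (z | z) hz h'
      · exact (a3 x hx y hy h).2 z (fun h => hz ⟨z, h, rfl⟩) h'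
      · exact h'
    · obtain ⟨A, c, a1, a2, a3⟩ := h2 _ f2 (by omega)
      have : (W ∩ inr '' A).ncard = (inr ⁻¹' W ∩ A).ncard := by
        rw [← Set.image_preimage_inter, Set.ncard_image_of_injective _ inr_injective]
      refine ⟨inr '' A, Sum.elim a.lab c, this ▸ a1, this ▸ a2, ?_⟩
      rintro _ ⟨x, hx, rfl⟩ _ ⟨y, hy, rfl⟩ h
      refine ⟨(a3 x hx y hy h).1, ?_⟩
      rintro (z | z) hz h'
      · exact h'
      · exact (a3 x hx y hy h).2 z (fun h => hz ⟨z, h, rfl⟩) h'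
  | join i j n a ih =>
    intro W hW h
    obtain ⟨A, c, a1, a2, a3⟩ := ih W hW h
    refine ⟨A, c, a1, a2, fun x hx y hy h => ⟨(a3 x hx y hy h).1, fun z hz h' => ?_⟩⟩
    rcases h' with h' | h'
    · exact .inl ((a3 x hx y hy h).2 z hz h')
    · exact .inr ⟨fun e => hz (e ▸ hy), by simpa only [(a3 x hx y hy h).1] using h'.2⟩
  | ren i j a ih =>
    intro W hW h
    obtain ⟨A, c, a1, a2, a3⟩ := ih W hW h
    exact ⟨A, c, a1, a2, fun x hx y hy h => ⟨by simp only [Ex.lab, (a3 x hx y hy h).1], (a3 x hx y hy h).2⟩⟩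

/-- every ordered pair of points is a vertex adjacent to its two points -/
def H (m : ℕ) : SimpleGraph (Fin m ⊕ Fin m × Fin m) :=
  SimpleGraph.fromRel fun x y => ∃ i p, x = inl i ∧ y = inr p ∧ (i = p.1 ∨ i = p.2)

theorem lower {t k : ℕ} (ht : 0 < t) (h : CwLe (H (3 * t)) k) : t ≤ k := by
  obtain ⟨e, ⟨f⟩⟩ := h
  have inj : Function.Injective (f ∘ inl) := f.injective.comp inl_injective
  obtain ⟨A, c, a1, a2, a3⟩ := cut e t ht (Set.range (f ∘ inl)) (Set.finite_range _)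
    (by rw [Set.ncard_range_of_injective inj]; simp; omega)
  have e1 : (Set.range (f ∘ inl) ∩ A).ncard = ((f ∘ inl) ⁻¹' A).ncard := by
    rw [← Set.image_preimage_eq_range_inter, Set.ncard_image_of_injective _ inj]
  rw [e1] at a1 a2
  have e2 := Set.ncard_add_ncard_compl ((f ∘ inl) ⁻¹' A)
  rw [Nat.card_fin] at e2
  have em : ∀ S : Set (Fin (3 * t)), t ≤ S.ncard → ∃ s : Fin t → Fin (3 * t), s.Injective ∧ ∀ i, s i ∈ S := fun S h => by
    have := Fintype.ofFinite S
    obtain ⟨g⟩ : Nonempty (Fin t ↪ S) := Function.Embedding.nonempty_of_card_le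
      (by rw [Fintype.card_fin, ← Nat.card_eq_fintype_card]; exact h)
    exact ⟨fun i => g i, Subtype.val_injective.comp g.injective, fun i => (g i).2⟩
  obtain ⟨s, s1, s2⟩ := em _ a1
  obtain ⟨u, u1, u2⟩ := em ((f ∘ inl) ⁻¹' A)ᶜ (by omega)
  have su : ∀ i j, s i ≠ u j := fun i j e => u2 j (e ▸ s2 i)
  classical
  have key : ∀ i, ∃ x z, f x ∈ A ∧ f z ∉ A ∧ (x = inl (s i) ∧ z = inr (s i, u i) ∨ x = inr (s i, u i) ∧ z = inl (u i)) :=
    fun i => by
      by_cases c : f (inr (s i, u i)) ∈ A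
      · exact ⟨_, _, c, u2 i, .inr ⟨rfl, rfl⟩⟩
      · exact ⟨_, _, s2 i, c, .inl ⟨rfl, rfl⟩⟩
  choose x z b1 b2 b3 using key
  refine (Fintype.card_fin t).symm.trans_le ((Fintype.card_le_of_injective (fun i => c (f (x i))) fun i j h => ?_).trans
    (Fintype.card_fin k).le)
  have := f.map_rel_iff.1 ((a3 _ (b1 i) _ (b1 j) h).2 _ (b2 i) (f.map_rel_iff.2 (by
    rcases b3 i with ⟨h1, h2⟩ | ⟨h1, h2⟩ <;> simp [H, h1, h2])))
  rcases b3 i with ⟨h1, h2⟩ | ⟨h1, h2⟩ <;> rcases b3 j with ⟨h3, -⟩ | ⟨h3, -⟩ <;>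
    simp [H, h2, h3, s1.eq_iff, u1.eq_iff, su, (su _ _).symm] at this <;> simp [this]

theorem result : ∃ C : ∀ n, SimpleGraph (Fin n) → Prop,
    (∀ n G m G', Nonempty (G ≃g G') → C n G → C m G') ∧
    (¬∃ c : ℝ, ∀ n G, C n G → 2 ≤ n → ∃ k : ℕ, k ≤ c * Real.log n ∧ CwLe G k) ∧
    ∀ p : Fm, InP fun a : {a : Gr // C a.n a.G} => Holds a.1.G p := by
  classical
  obtain ⟨b, φ, h1, h2⟩ := CompactSpace.tendsto_subseq fun t (p : Fm) => decide (Holds (H (3 * t)) p)
  have cd : ∀ {n t} {G : SimpleGraph (Fin n)}, G ≃g H (3 * t) → n = 3 * t + 3 * t * (3 * t) := fun f => by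
    simpa using f.card_eq
  refine ⟨fun n G => ∃ i, Nonempty (G ≃g H (3 * φ i)), fun _ _ _ _ ⟨f⟩ ⟨i, ⟨g⟩⟩ => ⟨i, ⟨f.symm.trans g⟩⟩,
    fun ⟨c, h⟩ => ?_, fun p => ?_⟩
  · have l := (Real.isLittleO_log_id_atTop.comp_tendsto (tendsto_natCast_atTop_atTop.comp h1.tendsto_atTop)).def
      (c := 1 / (4 * (|c| + 1))) (by positivity)
    obtain ⟨i, a1, a2⟩ := (l.and (h1.tendsto_atTop.eventually_ge_atTop 4)).exists
    let f := (H (3 * φ i)).overFinIso rfl
    have e := cd f.symm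
    obtain ⟨k, b1, e', ⟨g⟩⟩ := h _ _ ⟨i, ⟨f.symm⟩⟩ (by rw [e]; omega)
    have b2 : (φ i : ℝ) ≤ k := by exact_mod_cast lower (by omega) ⟨e', ⟨f.trans g⟩⟩
    have a3 : (4 : ℝ) ≤ φ i := by exact_mod_cast a2
    have b3 : Real.log (3 * φ i + 3 * φ i * (3 * φ i) : ℕ) ≤ 4 * Real.log (φ i) := by
      rw [show (4 : ℝ) = (4 : ℕ) by simp, ← Real.log_pow]
      refine Real.log_le_log (by push_cast; positivity) ?_
      push_cast
      nlinarith [mul_le_mul a3 a3 (by norm_num) (by linarith)]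
    have b4 := Real.log_natCast_nonneg (3 * φ i + 3 * φ i * (3 * φ i))
    rw [e] at b1
    simp only [Function.comp, id, Real.norm_eq_abs, Nat.abs_cast] at a1
    rw [div_mul_eq_mul_div, le_div_iff₀ (by positivity), abs_of_nonneg (Real.log_natCast_nonneg _)] at a1
    have b5 := Real.log_pos (show (1 : ℝ) < φ i by linarith)
    nlinarith [le_abs_self c, abs_nonneg c]
  · have := (tendsto_pi_nhds.1 h2 p).eventually (p := fun x => x = b p) (by simp)
    obtain ⟨N, hN⟩ := eventually_atTop.1 this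
    obtain ⟨L, hL⟩ : ∃ L : List ℕ, ∀ n, n ∈ L ↔ ∃ i < N, n = 3 * φ i + 3 * φ i * (3 * φ i) ∧
        decide (Holds (H (3 * φ i)) p) ≠ b p :=
      ⟨((List.range N).filter fun i => decide (Holds (H (3 * φ i)) p) ≠ b p).map fun i => 3 * φ i + 3 * φ i * (3 * φ i),
        fun n => by simp only [List.mem_map, List.mem_filter, List.mem_range, decide_eq_true_eq]; grind⟩
    refine ⟨fun a => xor (decide (a.1.n ∈ L)) (b p), by fun_prop, fun ⟨a, i, ⟨f⟩⟩ => ?_⟩
    have : a.n ∈ L ↔ decide (Holds (H (3 * φ i)) p) ≠ b p := by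
      rw [hL, cd f]
      refine ⟨fun ⟨j, _, e, h⟩ => ?_, fun h => ⟨i, not_le.1 fun l => h (hN i l), rfl, h⟩⟩
      rwa [show φ i = φ j from le_antisymm (by nlinarith) (by nlinarith)]
    refine (holds_iso f p).trans ?_
    simp only [this]
    cases b p <;> by_cases c : Holds (H (3 * φ i)) p <;> simp [c]

end Pool.Agent.Results.MP_62751d_lc.Exists
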